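import Mathlib
import Pool.Agent.R659.ExcB

set_option autoImplicit false

namespace Pool.Agent.Results.MP_0e8bc2_co.ExcessiveIndexFormula

open Finset Pool.Agent.R659.ExcM

section defs

variable {V : Type}

/-- `M` is a matching of `G`: a set of edges of `G`, no two of which share a vertex. -/
def IsMatching (G : SimpleGraph V) (M : Finset (Sym2 V)) : Prop :=
  (∀ e ∈ M, e ∈ G.edgeSet) ∧ ∀ e ∈ M, ∀ f ∈ M, e ≠ f → ∀ v, v ∈ e → v ∉ f

/-- `M` is an `[m]`-matching of `G`: a matching with exactly `m` edges. -/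
def IsMMatching (G : SimpleGraph V) (m : ℕ) (M : Finset (Sym2 V)) : Prop :=
  IsMatching G M ∧ M.card = m

/-- `G` is `[m]`-coverable: every edge lies in some `[m]`-matching of `G`. -/
def Coverable (G : SimpleGraph V) (m : ℕ) : Prop :=
  ∀ e ∈ G.edgeSet, ∃ M, IsMMatching G m M ∧ e ∈ M

/-- The excessive `[m]`-index: the least number of `[m]`-matchings whose union is `E(G)`. -/
noncomputable def excessiveIndex (G : SimpleGraph V) (m : ℕ) : ℕ :=
  sInf {k | ∃ F : Finset (Finset (Sym2 V)), F.card = k ∧ (∀ M ∈ F, IsMMatching G m M) ∧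
    ∀ e ∈ G.edgeSet, ∃ M ∈ F, e ∈ M}

/-- The chromatic index: the least number of colours in a proper edge colouring. -/
noncomputable def chromaticIndex (G : SimpleGraph V) : ℕ :=
  sInf {k | ∃ c : Sym2 V → ℕ, (∀ e ∈ G.edgeSet, c e < k) ∧
    ∀ e ∈ G.edgeSet, ∀ f ∈ G.edgeSet, e ≠ f → (∃ v, v ∈ e ∧ v ∈ f) → c e ≠ c f}

/-- `S` is (the edge set of) a `t`-splitting set of `G`: it contains a `[t+1]`-matching, and no
`[t+1]`-matching contained in `S` is contained in an `[m]`-matching of `G`. -/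
def IsSplitting (G : SimpleGraph V) (m t : ℕ) (S : Finset (Sym2 V)) : Prop :=
  (∀ e ∈ S, e ∈ G.edgeSet) ∧ (∃ N ⊆ S, IsMMatching G (t + 1) N) ∧
    ∀ N ⊆ S, IsMMatching G (t + 1) N → ∀ M, IsMMatching G m M → ¬ N ⊆ M

open Classical in
/-- `s^t(G)`: the largest number of edges of a `t`-splitting set (`0` if there is none). -/
noncomputable def splitMax [Fintype V] (G : SimpleGraph V) (m t : ℕ) : ℕ :=
  (univ.filter fun S : Finset (Sym2 V) => IsSplitting G m t S).sup card

/-- The right-hand side of the conjectured formula. -/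
noncomputable def rhs [Fintype V] (G : SimpleGraph V) (m : ℕ) : ℕ :=
  max (max (chromaticIndex G) ⌈(Nat.card G.edgeSet : ℚ) / m⌉₊)
    ((Icc 1 (m - 1)).sup fun t => ⌈(splitMax G m t : ℚ) / t⌉₊)

end defs

section lower

variable {V : Type} [Fintype V]

theorem splitMax_le (G : SimpleGraph V) (m t n : ℕ) :
    splitMax G m t ≤ n ↔ ∀ S, IsSplitting G m t S → S.card ≤ n := by
  classical
  unfold splitMax
  rw [Finset.sup_le_iff]
  simp

theorem ceil_div_le (a b k : ℕ) (hb : 1 ≤ b) : ⌈(a : ℚ) / b⌉₊ ≤ k ↔ a ≤ k * b := by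
  have hb' : (0 : ℚ) < b := by exact_mod_cast hb
  rw [Nat.ceil_le, div_le_iff₀ hb']
  exact_mod_cast Iff.rfl

theorem rhs_le (G : SimpleGraph V) (m k : ℕ) (hm : 1 ≤ m) :
    rhs G m ≤ k ↔ chromaticIndex G ≤ k ∧ Nat.card G.edgeSet ≤ k * m ∧
      ∀ t, 1 ≤ t → t ≤ m - 1 → splitMax G m t ≤ k * t := by
  unfold rhs
  rw [max_le_iff, max_le_iff, Finset.sup_le_iff, ceil_div_le _ _ _ hm, and_assoc]
  refine and_congr_right fun _ => and_congr_right fun _ => ?_
  constructor
  · intro h t h1 h2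
    exact (ceil_div_le _ _ _ h1).1 (h t (Finset.mem_Icc.2 ⟨h1, h2⟩))
  · intro h t ht
    rw [Finset.mem_Icc] at ht
    exact (ceil_div_le _ _ _ ht.1).2 (h t ht.1 ht.2)

/-- Each term of the right-hand side is a lower bound. -/
theorem lower (G : SimpleGraph V) (m : ℕ) (hm : 1 ≤ m) (F : Finset (Finset (Sym2 V)))
    (hF : ∀ M ∈ F, IsMMatching G m M) (hcov : ∀ e ∈ G.edgeSet, ∃ M ∈ F, e ∈ M) :
    rhs G m ≤ F.card := by
  classical
  have hfew : ∀ S : Finset (Sym2 V), (∀ e ∈ S, e ∈ G.edgeSet) → ∀ t,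
      (∀ M ∈ F, (S ∩ M).card ≤ t) → S.card ≤ F.card * t := by
    intro S hS t ht
    have hsub : S ⊆ F.biUnion fun M => S ∩ M := by
      intro e he
      obtain ⟨M, hM, heM⟩ := hcov e (hS e he)
      exact Finset.mem_biUnion.2 ⟨M, hM, Finset.mem_inter.2 ⟨he, heM⟩⟩
    exact (card_le_card hsub).trans (Finset.card_biUnion_le_card_mul _ _ _ ht)
  rw [rhs_le G m _ hm]
  refine ⟨?_, ?_, ?_⟩
  · -- chromatic index
    refine Nat.sInf_le ⟨fun e => if h : e ∈ G.edgeSet then
      (F.equivFin ⟨(hcov e h).choose, (hcov e h).choose_spec.1⟩ : ℕ) else 0, ?_, ?_⟩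
    · intro e he
      simp only [he, dite_true]
      exact Fin.is_lt _
    · rintro e he f hf hef ⟨v, hve, hvf⟩ hc
      simp only [he, hf, dite_true] at hc
      have h1 := F.equivFin.injective (Fin.ext hc)
      have h2 : (hcov e he).choose = (hcov f hf).choose := congrArg Subtype.val h1
      have h3 := (hcov e he).choose_spec
      have h4 := (hcov f hf).choose_spec
      rw [← h2] at h4
      exact (hF _ h3.1).1.2 e h3.2 f h4.2 hef v hve hvf
  · have h1 : Nat.card G.edgeSet = G.edgeSet.toFinset.card := by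
      rw [Nat.card_eq_fintype_card, Set.toFinset_card]
    rw [h1]
    refine hfew _ (fun e he => Set.mem_toFinset.1 he) m fun M hM => ?_
    exact (card_le_card Finset.inter_subset_right).trans (hF M hM).2.le
  · intro t h1 h2
    rw [splitMax_le]
    rintro S ⟨hS1, -, hS3⟩
    refine hfew S hS1 t fun M hM => ?_
    by_contra hlt
    push Not at hlt
    obtain ⟨N, hN, hNc⟩ := Finset.exists_subset_card_eq (show t + 1 ≤ (S ∩ M).card by omega)
    have hNM : N ⊆ M := hN.trans Finset.inter_subset_right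
    refine hS3 N (hN.trans Finset.inter_subset_left) ⟨⟨?_, ?_⟩, hNc⟩ M (hF M hM) hNM
    · intro e he
      exact (hF M hM).1.1 e (hNM he)
    · intro e he f hf
      exact (hF M hM).1.2 e (hNM he) f (hNM hf)

theorem chromaticIndex_spec (G : SimpleGraph V) :
    ∃ c : Sym2 V → ℕ, (∀ e ∈ G.edgeSet, c e < chromaticIndex G) ∧
      ∀ e ∈ G.edgeSet, ∀ f ∈ G.edgeSet, e ≠ f → (∃ v, v ∈ e ∧ v ∈ f) → c e ≠ c f := by
  classical
  have hne : {k | ∃ c : Sym2 V → ℕ, (∀ e ∈ G.edgeSet, c e < k) ∧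
      ∀ e ∈ G.edgeSet, ∀ f ∈ G.edgeSet, e ≠ f → (∃ v, v ∈ e ∧ v ∈ f) → c e ≠ c f}.Nonempty := by
    refine ⟨Fintype.card (Sym2 V), fun e => (Fintype.equivFin (Sym2 V) e : ℕ),
      fun e _ => Fin.is_lt _, ?_⟩
    intro e _ f _ hef _ hc
    exact hef ((Fintype.equivFin (Sym2 V)).injective (Fin.ext hc))
  exact Nat.sInf_mem hne

end lower

section upper

variable {V : Type} [Fintype V] [DecidableEq V]

theorem upper (G : SimpleGraph V) (hG : G.Colorable 2) (m : ℕ) (hm : 1 ≤ m)
    (hcov : Coverable G m) :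
    ∃ F : Finset (Finset (Sym2 V)), F.card ≤ rhs G m ∧ (∀ M ∈ F, IsMMatching G m M) ∧
      ∀ e ∈ G.edgeSet, ∃ M ∈ F, e ∈ M := by
  classical
  obtain ⟨c⟩ := hG
  let P : Finset (V × V) := univ.filter fun p => G.Adj p.1 p.2 ∧ c p.1 = 0
  have hPmem : ∀ p, p ∈ P ↔ G.Adj p.1 p.2 ∧ c p.1 = 0 := by intro p; simp [P]
  let mk : V × V → Sym2 V := fun p => s(p.1, p.2)
  have hmkE : ∀ p ∈ P, mk p ∈ G.edgeSet := by
    intro p hp
    exact ((hPmem p).1 hp).1
  have hP2 : ∀ p ∈ P, c p.2 ≠ 0 := by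
    intro p hp h
    exact c.valid ((hPmem p).1 hp).1 (((hPmem p).1 hp).2.trans h.symm)
  have hsurj : ∀ e ∈ G.edgeSet, ∃ p ∈ P, mk p = e := by
    intro e
    induction e using Sym2.ind with
    | _ u w =>
      intro he
      rw [SimpleGraph.mem_edgeSet] at he
      by_cases hu : c u = 0
      · exact ⟨(u, w), (hPmem _).2 ⟨he, hu⟩, rfl⟩
      · refine ⟨(w, u), (hPmem _).2 ⟨he.symm, ?_⟩, Sym2.eq_swap⟩
        have h1 := c.valid he
        change c w = 0
        revert hu h1
        generalize c u = a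
        generalize c w = b
        revert a b
        decide
  -- two pairs of `P` share a vertex as edges iff they share a coordinate
  have hshare : ∀ p ∈ P, ∀ r ∈ P, ∀ v, v ∈ mk p → v ∈ mk r → p.1 = r.1 ∨ p.2 = r.2 := by
    intro p hp r hr v hvp hvr
    simp only [mk, Sym2.mem_iff] at hvp hvr
    have hp1 := ((hPmem p).1 hp).2
    have hr1 := ((hPmem r).1 hr).2
    have hp2 := hP2 p hp
    have hr2 := hP2 r hr
    rcases hvp with h1 | h1 <;> rcases hvr with h2 | h2
    · exact Or.inl (h1.symm.trans h2)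
    · exact absurd (by rw [← h2, h1]; exact hp1) hr2
    · exact absurd (by rw [← h1, h2]; exact hr1) hp2
    · exact Or.inr (h1.symm.trans h2)
  have hinj : Set.InjOn mk (P : Set (V × V)) := by
    intro p hp r hr h
    have hp' := Finset.mem_coe.1 hp
    have hr' := Finset.mem_coe.1 hr
    have hp1 := ((hPmem p).1 hp').2
    have hr2 := hP2 r hr'
    rcases Sym2.eq_iff.1 h with ⟨h1, h2⟩ | ⟨h1, h2⟩
    · exact Prod.ext h1 h2
    · exact absurd (by rw [← h1]; exact hp1) hr2
  have push : ∀ M ⊆ P, PM M → IsMatching G (M.image mk) ∧ (M.image mk).card = M.card := by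
    intro M hM hPM
    refine ⟨⟨?_, ?_⟩, Finset.card_image_of_injOn (hinj.mono (by exact_mod_cast hM))⟩
    · intro e he
      obtain ⟨p, hp, rfl⟩ := Finset.mem_image.1 he
      exact hmkE p (hM hp)
    · intro e he f hf hef v hve hvf
      obtain ⟨p, hp, rfl⟩ := Finset.mem_image.1 he
      obtain ⟨r, hr, rfl⟩ := Finset.mem_image.1 hf
      rcases hshare p (hM hp) r (hM hr) v hve hvf with h | h
      · exact hef (congrArg mk (hPM.1 (Finset.mem_coe.2 hp) (Finset.mem_coe.2 hr) h))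
      · exact hef (congrArg mk (hPM.2 (Finset.mem_coe.2 hp) (Finset.mem_coe.2 hr) h))
  have lift : ∀ M' : Finset (Sym2 V), IsMatching G M' →
      PM (P.filter fun p => mk p ∈ M') ∧ (P.filter fun p => mk p ∈ M').card = M'.card := by
    intro M' hM'
    refine ⟨⟨?_, ?_⟩, ?_⟩
    · intro p hp r hr h
      have hp' := Finset.mem_filter.1 (Finset.mem_coe.1 hp)
      have hr' := Finset.mem_filter.1 (Finset.mem_coe.1 hr)
      by_contra hne
      refine hM'.2 _ hp'.2 _ hr'.2 (fun h' => hne (hinj (Finset.mem_coe.2 hp'.1)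
        (Finset.mem_coe.2 hr'.1) h')) p.1 (Sym2.mem_mk_left _ _) ?_
      rw [h]
      exact Sym2.mem_mk_left _ _
    · intro p hp r hr h
      have hp' := Finset.mem_filter.1 (Finset.mem_coe.1 hp)
      have hr' := Finset.mem_filter.1 (Finset.mem_coe.1 hr)
      by_contra hne
      refine hM'.2 _ hp'.2 _ hr'.2 (fun h' => hne (hinj (Finset.mem_coe.2 hp'.1)
        (Finset.mem_coe.2 hr'.1) h')) p.2 (Sym2.mem_mk_right _ _) ?_
      rw [h]
      exact Sym2.mem_mk_right _ _
    · have h1 : (P.filter fun p => mk p ∈ M').image mk = M' := by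
        ext e
        simp only [mem_image, mem_filter]
        constructor
        · rintro ⟨p, ⟨_, h⟩, rfl⟩; exact h
        · intro he
          obtain ⟨p, hp, rfl⟩ := hsurj e (hM'.1 e he)
          exact ⟨p, ⟨hp, he⟩, rfl⟩
      rw [← Finset.card_image_of_injOn (f := mk) (s := P.filter fun p => mk p ∈ M')
        (hinj.mono (by exact_mod_cast Finset.filter_subset _ _)), h1]
  rcases P.eq_empty_or_nonempty with hPe | hPne
  · refine ⟨∅, by simp, by simp, ?_⟩
    intro e he
    obtain ⟨p, hp, -⟩ := hsurj e he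
    rw [hPe] at hp
    exact absurd hp (Finset.notMem_empty _)
  obtain ⟨col, hcol1, hcol2⟩ := chromaticIndex_spec G
  obtain ⟨hk1, hk2, hk3⟩ := (rhs_le G m (rhs G m) hm).1 le_rfl
  set k := rhs G m with hk
  have hPcard : P.card ≤ k * m := by
    have h1 : Nat.card G.edgeSet = G.edgeSet.toFinset.card := by
      rw [Nat.card_eq_fintype_card, Set.toFinset_card]
    rw [h1] at hk2
    refine le_trans ?_ hk2
    rw [← Finset.card_image_of_injOn hinj]
    refine card_le_card fun e he => ?_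
    obtain ⟨p, hp, rfl⟩ := Finset.mem_image.1 he
    exact Set.mem_toFinset.2 (hmkE p hp)
  obtain ⟨F, hF1, hF2⟩ := core P m k hm hPne
    (by
      intro p hp
      obtain ⟨M', hM', hpM⟩ := hcov (mk p) (hmkE p hp)
      obtain ⟨h1, h2⟩ := lift M' hM'.1
      exact ⟨_, Finset.filter_subset _ _, h1, h2.trans hM'.2, Finset.mem_filter.2 ⟨hp, hpM⟩⟩)
    (fun p => col (mk p)) (fun p hp => lt_of_lt_of_le (hcol1 _ (hmkE p hp)) hk1)
    (fun p hp r hr hne h => hcol2 _ (hmkE p hp) _ (hmkE r hr) (fun h' => hne (hinj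
      (Finset.mem_coe.2 hp) (Finset.mem_coe.2 hr) h')) ⟨p.1, Sym2.mem_mk_left _ _, by
        rw [h]; exact Sym2.mem_mk_left _ _⟩)
    (fun p hp r hr hne h => hcol2 _ (hmkE p hp) _ (hmkE r hr) (fun h' => hne (hinj
      (Finset.mem_coe.2 hp) (Finset.mem_coe.2 hr) h')) ⟨p.2, Sym2.mem_mk_right _ _, by
        rw [h]; exact Sym2.mem_mk_right _ _⟩)
    hPcard
    (by
      intro t ht1 ht2 S hS hN hno
      refine le_trans ?_ ((splitMax_le G m t _).1 (hk3 t ht1 ht2) (S.image mk) ⟨?_, ?_, ?_⟩)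
      · rw [Finset.card_image_of_injOn (hinj.mono (by exact_mod_cast hS))]
      · intro e he
        obtain ⟨p, hp, rfl⟩ := Finset.mem_image.1 he
        exact hmkE p (hS hp)
      · obtain ⟨N, hNS, hPN, hNc⟩ := hN
        obtain ⟨h1, h2⟩ := push N (hNS.trans hS) hPN
        exact ⟨N.image mk, Finset.image_subset_image hNS, h1, h2.trans hNc⟩
      · intro N' hN' hNm M' hM' hNM
        obtain ⟨h1, h2⟩ := lift N' hNm.1
        obtain ⟨h3, h4⟩ := lift M' hM'.1
        refine hno (P.filter fun p => mk p ∈ N') ?_ h1 (h2.trans hNm.2)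
          (P.filter fun p => mk p ∈ M') (Finset.filter_subset _ _) h3 (h4.trans hM'.2) ?_
        · intro p hp
          rw [Finset.mem_filter] at hp
          obtain ⟨r, hr, hrp⟩ := Finset.mem_image.1 (hN' hp.2)
          rw [hinj (Finset.mem_coe.2 (hS hr)) (Finset.mem_coe.2 hp.1) hrp] at hr
          exact hr
        · intro p hp
          rw [Finset.mem_filter] at hp ⊢
          exact ⟨hp.1, hNM hp.2⟩)
  refine ⟨univ.image fun i => (F i).image mk, ?_, ?_, ?_⟩
  · exact card_image_le.trans (by simp)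
  · intro M hM
    obtain ⟨i, -, rfl⟩ := Finset.mem_image.1 hM
    obtain ⟨h1, h2⟩ := push (F i) (hF1 i).1 (hF1 i).2.1
    exact ⟨h1, h2.trans (hF1 i).2.2⟩
  · intro e he
    obtain ⟨p, hp, rfl⟩ := hsurj e he
    obtain ⟨i, hi⟩ := hF2 p hp
    exact ⟨_, Finset.mem_image.2 ⟨i, Finset.mem_univ _, rfl⟩, Finset.mem_image_of_mem _ hi⟩

theorem formula (G : SimpleGraph V) (hG : G.Colorable 2) (m : ℕ) (hm : 1 ≤ m)
    (hcov : Coverable G m) : excessiveIndex G m = rhs G m := by
  obtain ⟨F, hF1, hF2, hF3⟩ := upper G hG m hm hcov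
  have hle : excessiveIndex G m ≤ F.card := Nat.sInf_le ⟨F, rfl, hF2, hF3⟩
  refine le_antisymm (hle.trans hF1) ?_
  have hne : {k | ∃ F : Finset (Finset (Sym2 V)), F.card = k ∧ (∀ M ∈ F, IsMMatching G m M) ∧
      ∀ e ∈ G.edgeSet, ∃ M ∈ F, e ∈ M}.Nonempty := ⟨F.card, F, rfl, hF2, hF3⟩
  obtain ⟨F', h1, h2, h3⟩ := Nat.sInf_mem hne
  have := lower G m hm F' h2 h3
  rw [h1] at this
  exact this

end upper

/-- The formula holds for all trees (Q1), and more generally for all bipartite graphs. -/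
theorem result :
    (∀ (V : Type) [Fintype V] (T : SimpleGraph V), T.IsTree →
      ∀ m : ℕ, 1 ≤ m → Coverable T m → excessiveIndex T m = rhs T m) ∧
    (∀ (V : Type) [Fintype V] (G : SimpleGraph V), G.Colorable 2 →
      ∀ m : ℕ, 1 ≤ m → Coverable G m → excessiveIndex G m = rhs G m) :=
  ⟨fun _ _ T hT m hm hc => by classical exact formula T hT.colorable_two m hm hc,
    fun _ _ G hG m hm hc => by classical exact formula G hG m hm hc⟩

end Pool.Agent.Results.MP_0e8bc2_co.ExcessiveIndexFormula
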